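import Mathlib

/-!
# The maximum propagation time of minimum zero forcing sets of the hypercube `Q_6` exceeds `16`
-/

set_option autoImplicit false

namespace Pool.Agent.Results.MP_d17388_co.SlowForcingCube

/-! ### Definitions of the problem -/

/-- The hypercube `Q_d`: two vertices are adjacent iff they differ in exactly one coordinate. -/
def cube (d : ℕ) : SimpleGraph (Fin d → Bool) where
  Adj x y := ∃! i, x i ≠ y i
  symm := ⟨fun x y h => by simpa only [ne_comm] using h⟩
  loopless := ⟨fun x h => by obtain ⟨i, hi, _⟩ := h; exact hi rfl⟩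

/-- The vertices that can be filled by repeated use of the colour change rule, starting with exactly
the vertices of `S` filled: a filled vertex all of whose neighbours except `w` are filled may fill
its neighbour `w`. -/
inductive Filled {V : Type} (G : SimpleGraph V) (S : Set V) : V → Prop
  | base (v : V) : v ∈ S → Filled G S v
  | force (v w : V) : Filled G S v → G.Adj v w → (∀ u, G.Adj v u → u ≠ w → Filled G S u) →
      Filled G S w

/-- `S` is a zero forcing set of `G`. -/
def IsForcing {V : Type} (G : SimpleGraph V) (S : Set V) : Prop := ∀ v, Filled G S v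

/-- The zero forcing number. -/
noncomputable def Z {V : Type} (G : SimpleGraph V) : ℕ :=
  sInf {k | ∃ S : Set V, IsForcing G S ∧ S.ncard = k}

/-- `S` is a minimum zero forcing set of `G`. -/
def IsMin {V : Type} (G : SimpleGraph V) (S : Set V) : Prop := IsForcing G S ∧ S.ncard = Z G

/-- One step of the simultaneous process: `S` together with every `w` outside `S` that is the only
neighbour outside `S` of some `v` in `S`. -/
def step {V : Type} (G : SimpleGraph V) (S : Set V) : Set V :=
  S ∪ {w | w ∉ S ∧ ∃ v ∈ S, G.Adj v w ∧ ∀ u, G.Adj v u → u ∉ S → u = w}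

/-- The propagation time `pt(G, S)`: the least `t` such that `t` steps starting from `S` fill `G`. -/
noncomputable def pt {V : Type} (G : SimpleGraph V) (S : Set V) : ℕ :=
  sInf {t | (step G)^[t] S = Set.univ}

/-- `pt(G)`: the least propagation time of a minimum zero forcing set. -/
noncomputable def ptMin {V : Type} (G : SimpleGraph V) : ℕ := sInf {t | ∃ S, IsMin G S ∧ pt G S = t}

/-- `PT(G)`: the largest propagation time of a minimum zero forcing set. -/
noncomputable def ptMax {V : Type} (G : SimpleGraph V) : ℕ := sSup {t | ∃ S, IsMin G S ∧ pt G S = t}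

/-- `G` has a full propagation time interval. -/
def FullInterval {V : Type} (G : SimpleGraph V) : Prop :=
  ∀ k, ptMin G ≤ k → k ≤ ptMax G → ∃ S, IsMin G S ∧ pt G S = k

/-! ### Flips -/

/-- change coordinate `i` -/
def flip {d : ℕ} (i : Fin d) (x : Fin d → Bool) : Fin d → Bool := Function.update x i (!x i)

theorem flip_same {d : ℕ} (i : Fin d) (x : Fin d → Bool) : flip i x i = !x i := by
  simp [flip]

theorem flip_ne {d : ℕ} {i j : Fin d} (h : j ≠ i) (x : Fin d → Bool) : flip i x j = x j := by
  simp [flip, h]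

theorem adj_iff {d : ℕ} (x y : Fin d → Bool) : (cube d).Adj x y ↔ ∃ i, y = flip i x := by
  constructor
  · rintro ⟨i, hi, hu⟩
    refine ⟨i, funext fun j => ?_⟩
    by_cases h : j = i
    · subst h
      rw [flip_same]
      cases hx : x j <;> cases hy : y j <;> simp_all
    · rw [flip_ne h]
      by_contra hne
      exact h (hu j (fun h2 => hne h2.symm))
  · rintro ⟨i, rfl⟩
    refine ⟨i, ?_, fun j hj => ?_⟩
    · show x i ≠ flip i x i
      rw [flip_same]
      cases x i <;> simp
    · by_contra hji
      exact hj (flip_ne hji x).symm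

theorem flip_flip {d : ℕ} (i : Fin d) (x : Fin d → Bool) : flip i (flip i x) = x := by
  funext j
  by_cases h : j = i
  · subst h; rw [flip_same, flip_same, Bool.not_not]
  · rw [flip_ne h, flip_ne h]

theorem flip_comm {d : ℕ} (i j : Fin d) (x : Fin d → Bool) : flip i (flip j x) = flip j (flip i x) := by
  funext l
  by_cases h1 : l = i
  · subst h1
    by_cases h2 : l = j
    · subst h2; rfl
    · rw [flip_same, flip_ne h2, flip_ne h2, flip_same]
  · by_cases h2 : l = j
    · subst h2
      rw [flip_ne h1, flip_same, flip_same, flip_ne h1]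
    · rw [flip_ne h1, flip_ne h2, flip_ne h2, flip_ne h1]

theorem flip_ne_self {d : ℕ} (i : Fin d) (x : Fin d → Bool) : flip i x ≠ x := by
  intro h
  have := congrFun h i
  rw [flip_same] at this
  cases hx : x i <;> simp_all

/-! ### The lower bound `Z(Q_6) ≥ 32` -/

/-- the adjacency operator over the field with two elements -/
def Adj2 (d : ℕ) : ((Fin d → Bool) → ZMod 2) →ₗ[ZMod 2] ((Fin d → Bool) → ZMod 2) where
  toFun f x := ∑ i, f (flip i x)
  map_add' f g := by
    funext x
    simp [Finset.sum_add_distrib]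
  map_smul' c f := by
    funext x
    simp [Finset.mul_sum]

theorem symm_sum {d : ℕ} (g : Fin d → Fin d → ZMod 2) (h : ∀ i j, g i j = g j i) :
    ∑ i, ∑ j, g i j = ∑ i, g i i := by
  classical
  rw [← Finset.sum_product']
  rw [← Finset.sum_filter_add_sum_filter_not (Finset.univ ×ˢ Finset.univ)
    (fun p : Fin d × Fin d => p.1 = p.2)]
  have h1 : ∑ p ∈ (Finset.univ ×ˢ Finset.univ).filter (fun p : Fin d × Fin d => ¬ p.1 = p.2),
      g p.1 p.2 = 0 := by
    refine Finset.sum_involution (fun p _ => p.swap) ?_ ?_ ?_ ?_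
    · intro p _
      rw [Prod.fst_swap, Prod.snd_swap, h p.2 p.1]
      exact CharTwo.add_self_eq_zero _
    · intro p hp _ he
      have := (Finset.mem_filter.1 hp).2
      apply this
      have h2 := congrArg Prod.fst he
      exact h2.symm
    · intro p hp
      rw [Finset.mem_filter] at hp ⊢
      exact ⟨Finset.mem_product.2 ⟨Finset.mem_univ _, Finset.mem_univ _⟩, fun h2 => hp.2 h2.symm⟩
    · intro p _
      exact p.swap_swap
  rw [h1, add_zero]
  refine Finset.sum_nbij' (fun p => p.1) (fun i => (i, i)) ?_ ?_ ?_ ?_ ?_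
  · intro p _; exact Finset.mem_univ _
  · intro i _
    exact Finset.mem_filter.2 ⟨Finset.mem_product.2 ⟨Finset.mem_univ _, Finset.mem_univ _⟩, rfl⟩
  · intro p hp
    exact Prod.ext rfl (Finset.mem_filter.1 hp).2
  · intro i _; rfl
  · intro p hp
    rw [(Finset.mem_filter.1 hp).2]

theorem Adj2_sq (f : (Fin 6 → Bool) → ZMod 2) : Adj2 6 (Adj2 6 f) = 0 := by
  funext x
  show ∑ i, ∑ j, f (flip j (flip i x)) = 0
  rw [symm_sum (fun i j => f (flip j (flip i x))) (fun i j => by rw [flip_comm])]
  simp only [flip_flip]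
  rw [Finset.sum_const, Finset.card_univ, Fintype.card_fin, nsmul_eq_mul]
  have : ((6 : ℕ) : ZMod 2) = 0 := by decide
  rw [this, zero_mul]

theorem finrank_ker : 32 ≤ Module.finrank (ZMod 2) (LinearMap.ker (Adj2 6)) := by
  have h1 := LinearMap.finrank_range_add_finrank_ker (Adj2 6)
  have h2 : LinearMap.range (Adj2 6) ≤ LinearMap.ker (Adj2 6) := by
    rintro _ ⟨f, rfl⟩
    exact Adj2_sq f
  have h3 := Submodule.finrank_mono h2
  have h4 : Module.finrank (ZMod 2) ((Fin 6 → Bool) → ZMod 2) = 64 := by
    rw [Module.finrank_fintype_fun_eq_card]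
    simp
  omega

theorem zero_of_filled {S : Set (Fin 6 → Bool)} {f : (Fin 6 → Bool) → ZMod 2}
    (hf : Adj2 6 f = 0) (hS : ∀ x ∈ S, f x = 0) {v : Fin 6 → Bool} (hv : Filled (cube 6) S v) :
    f v = 0 := by
  induction hv with
  | base v hv => exact hS v hv
  | force v w _ hadj _ _ ih =>
    obtain ⟨i, rfl⟩ := (adj_iff v w).1 hadj
    have h1 : ∑ j, f (flip j v) = 0 := congrFun hf v
    rw [Finset.sum_eq_single i] at h1
    · exact h1
    · intro j _ hj
      apply ih (flip j v) ((adj_iff _ _).2 ⟨j, rfl⟩)
      intro h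
      have := congrFun h j
      rw [flip_same, flip_ne hj] at this
      cases hx : v j <;> simp_all
    · intro h; exact absurd (Finset.mem_univ _) h

theorem card_ge {S : Set (Fin 6 → Bool)} (hS : IsForcing (cube 6) S) : 32 ≤ S.ncard := by
  classical
  have : Fintype S := Fintype.ofFinite S
  let r : LinearMap.ker (Adj2 6) →ₗ[ZMod 2] (S → ZMod 2) :=
    { toFun := fun f x => (f : (Fin 6 → Bool) → ZMod 2) x
      map_add' := fun f g => rfl
      map_smul' := fun c f => rfl }
  have hinj : Function.Injective r := by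
    rw [injective_iff_map_eq_zero]
    rintro ⟨f, hf⟩ h
    apply Subtype.ext
    funext v
    exact zero_of_filled hf (fun x hx => congrFun h ⟨x, hx⟩) (hS v)
  have h1 := LinearMap.finrank_le_finrank_of_injective hinj
  rw [Module.finrank_fintype_fun_eq_card] at h1
  have h2 : S.ncard = Fintype.card S := by
    rw [Set.ncard_eq_toFinset_card', Set.toFinset_card]
  rw [h2]
  exact finrank_ker.trans h1

/-! ### The simultaneous process fills only what the rule fills -/

theorem subset_step {V : Type} (G : SimpleGraph V) (S : Set V) : S ⊆ step G S :=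
  Set.subset_union_left

theorem iterate_mono {V : Type} (G : SimpleGraph V) (S : Set V) {m n : ℕ} (h : m ≤ n) :
    (step G)^[m] S ⊆ (step G)^[n] S := by
  induction n, h using Nat.le_induction with
  | base => exact le_rfl
  | succ n _ ih =>
    rw [Function.iterate_succ_apply']
    exact ih.trans (subset_step G _)

theorem filled_of_iterate {V : Type} (G : SimpleGraph V) (S : Set V) (n : ℕ) :
    ∀ v ∈ (step G)^[n] S, Filled G S v := by
  classical
  induction n with
  | zero => exact fun v hv => Filled.base v hv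
  | succ n ih =>
    intro w hw
    rw [Function.iterate_succ_apply'] at hw
    rcases hw with hw | ⟨_, v, hv, hadj, hu⟩
    · exact ih w hw
    · refine Filled.force v w (ih v hv) hadj fun u hvu huw => ih u ?_
      by_contra hcon
      exact huw (hu u hvu hcon)

/-! ### Sets given by bit masks -/

/-- the set of vertices with the numbers of the binary digits `1` of `m` -/
def setOf (m : ℕ) : Set (Fin 6 → Bool) := {x | m.testBit (Nat.ofBits x) = true}

theorem ofBits_flip (i : Fin 6) (x : Fin 6 → Bool) :
    Nat.ofBits (flip i x) = Nat.ofBits x ^^^ 2 ^ (i : ℕ) := by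
  apply Nat.eq_of_testBit_eq
  intro j
  rw [Nat.testBit_xor, Nat.testBit_two_pow]
  by_cases hj : j < 6
  · rw [Nat.testBit_ofBits_lt _ _ hj, Nat.testBit_ofBits_lt _ _ hj]
    by_cases h : (⟨j, hj⟩ : Fin 6) = i
    · subst h
      rw [flip_same]
      simp
    · rw [flip_ne h]
      have : ¬ ((i : ℕ) = j) := fun h2 => h (Fin.ext h2.symm)
      simp [this]
  · rw [Nat.testBit_ofBits_ge _ _ (by omega), Nat.testBit_ofBits_ge _ _ (by omega)]
    have : ¬ ((i : ℕ) = j) := by have := i.2; omega
    simp [this]

/-- the check that one step leads from `m` to `m'` -/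
def chk (m m' : ℕ) : Bool :=
  (List.range 64).all fun n => (m'.testBit n) == (m.testBit n ||
    (List.range 6).any fun i => m.testBit (n ^^^ 2 ^ i) &&
      (List.range 6).all fun j => j == i || m.testBit ((n ^^^ 2 ^ i) ^^^ 2 ^ j))

theorem step_setOf {m m' : ℕ} (h : chk m m' = true) : step (cube 6) (setOf m) = setOf m' := by
  ext x
  have hx : Nat.ofBits x < 64 := Nat.ofBits_lt_two_pow x
  unfold chk at h
  rw [List.all_eq_true] at h
  have h1 := h _ (List.mem_range.2 hx)
  rw [beq_iff_eq] at h1
  show _ ↔ m'.testBit (Nat.ofBits x) = true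
  rw [h1, Bool.or_eq_true, List.any_eq_true]
  constructor
  · rintro (hx1 | ⟨_, v, hv, hadj, hu⟩)
    · exact Or.inl hx1
    · right
      obtain ⟨i, rfl⟩ := (adj_iff v x).1 hadj
      refine ⟨i, List.mem_range.2 i.2, ?_⟩
      rw [Bool.and_eq_true, ← ofBits_flip, flip_flip]
      refine ⟨hv, ?_⟩
      rw [List.all_eq_true]
      intro j hj
      rw [List.mem_range] at hj
      rw [Bool.or_eq_true, beq_iff_eq]
      by_cases hji : j = i
      · exact Or.inl hji
      · right
        have h2 := ofBits_flip ⟨j, hj⟩ v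
        rw [show ((⟨j, hj⟩ : Fin 6) : ℕ) = j from rfl] at h2
        rw [← h2]
        by_contra hcon
        have h3 := hu (flip ⟨j, hj⟩ v) ((adj_iff _ _).2 ⟨_, rfl⟩) hcon
        have h4 := congrFun h3 ⟨j, hj⟩
        rw [flip_same, flip_ne (fun h => hji (congrArg Fin.val h))] at h4
        cases hvj : v ⟨j, hj⟩ <;> simp_all
  · rintro (hx1 | ⟨i, hi, h2⟩)
    · exact Or.inl hx1
    · by_cases hxm : x ∈ setOf m
      · exact Or.inl hxm
      right
      rw [List.mem_range] at hi
      rw [Bool.and_eq_true, List.all_eq_true] at h2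
      obtain ⟨h3, h4⟩ := h2
      have h5 := ofBits_flip ⟨i, hi⟩ x
      rw [show ((⟨i, hi⟩ : Fin 6) : ℕ) = i from rfl] at h5
      refine ⟨hxm, flip ⟨i, hi⟩ x, ?_, (adj_iff _ _).2 ⟨⟨i, hi⟩, (flip_flip _ _).symm⟩, ?_⟩
      · show m.testBit (Nat.ofBits (flip ⟨i, hi⟩ x)) = true
        rw [h5]
        exact h3
      · intro u hadj hu
        obtain ⟨j, rfl⟩ := (adj_iff _ u).1 hadj
        have h6 := h4 j (List.mem_range.2 j.2)
        rw [Bool.or_eq_true, beq_iff_eq] at h6
        rcases h6 with h6 | h6
        · have : j = ⟨i, hi⟩ := Fin.ext h6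
          rw [this, flip_flip]
        · exfalso
          apply hu
          show m.testBit (Nat.ofBits (flip j (flip ⟨i, hi⟩ x))) = true
          rw [ofBits_flip, h5]
          exact h6

/-- the initial set and the 18 following ones -/
def masks : List ℕ := [0x4be50ab92ed0bcd1, 0x4be50ab92ed0bcf1, 0x4be50ab92ed0bcf9,
  0x4be50ab92ed0bef9, 0x4be52ab92ed0bef9, 0x4be52abb2ed0bef9, 0x4be52bbb2ed0bef9,
  0x4be52bbf2ed0bef9, 0x4bed2bbf2ed0bef9, 0xcbed2bbf2ed0bef9, 0xcfed2bbf2ed0bef9,
  0xcfed2fbf2ed4bef9, 0xcfedefbf6ed4bef9, 0xdfedefff6fd4bef9, 0xdffdefff6fd6befd,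
  0xdffdffff6fd6fefd, 0xfffdffffefd6fffd, 0xffffffffffdeffff, 0xffffffffffffffff]

theorem masks_chk : ∀ t < 18, chk (masks.getD t 0) (masks.getD (t + 1) 0) = true := by
  decide +kernel

theorem iterate_masks : ∀ t ≤ 18, (step (cube 6))^[t] (setOf (masks.getD 0 0))
    = setOf (masks.getD t 0) := by
  intro t
  induction t with
  | zero => intro _; rfl
  | succ t ih =>
    intro ht
    rw [Function.iterate_succ_apply', ih (by omega)]
    exact step_setOf (masks_chk t (by omega))

theorem full_mask : setOf (masks.getD 18 0) = Set.univ := by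
  rw [Set.eq_univ_iff_forall]
  intro x
  have hx : Nat.ofBits x < 64 := Nat.ofBits_lt_two_pow x
  have h : ∀ n < 64, (masks.getD 18 0).testBit n = true := by decide +kernel
  exact h _ hx

theorem not_full : setOf (masks.getD 17 0) ≠ Set.univ := by
  intro h
  have h1 : (fun i : Fin 6 => Nat.testBit 16 i) ∈ setOf (masks.getD 17 0) := by rw [h]; trivial
  have h2 : (masks.getD 17 0).testBit (Nat.ofBits fun i : Fin 6 => Nat.testBit 16 i) = false := by
    decide +kernel
  have h3 : (masks.getD 17 0).testBit (Nat.ofBits fun i : Fin 6 => Nat.testBit 16 i) = true := h1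
  rw [h2] at h3
  exact Bool.false_ne_true h3

theorem card_mask : (setOf (masks.getD 0 0)).ncard = 32 := by
  have h1 : setOf (masks.getD 0 0) = (((Finset.range 64).filter
      (fun n => (masks.getD 0 0).testBit n = true)).image
        (fun n => (fun i : Fin 6 => Nat.testBit n i)) : Finset (Fin 6 → Bool)) := by
    ext x
    rw [Finset.mem_coe, Finset.mem_image]
    constructor
    · intro hx
      refine ⟨Nat.ofBits x, Finset.mem_filter.2 ⟨Finset.mem_range.2 (Nat.ofBits_lt_two_pow x), hx⟩, ?_⟩
      funext i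
      rw [Nat.testBit_ofBits_lt _ _ i.2]
    · rintro ⟨n, hn, rfl⟩
      rw [Finset.mem_filter, Finset.mem_range] at hn
      show (masks.getD 0 0).testBit (Nat.ofBits fun i : Fin 6 => Nat.testBit n i) = true
      have : (Nat.ofBits fun i : Fin 6 => Nat.testBit n i) = n := by
        apply Nat.eq_of_testBit_eq
        intro j
        by_cases hj : j < 6
        · rw [Nat.testBit_ofBits_lt _ _ hj]
        · rw [Nat.testBit_ofBits_ge _ _ (by omega)]
          have h3 : n < 2 ^ j := hn.1.trans_le (Nat.pow_le_pow_right (n := 2) (i := 6) (by norm_num)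
            (by omega))
          rw [Nat.testBit_lt_two_pow h3]
      rw [this]
      exact hn.2
  rw [h1, Set.ncard_coe_finset, Finset.card_image_of_injOn]
  · decide +kernel
  · intro a ha b hb hab
    rw [Finset.mem_coe, Finset.mem_filter, Finset.mem_range] at ha hb
    apply Nat.eq_of_testBit_eq
    intro j
    by_cases hj : j < 6
    · exact congrFun hab ⟨j, hj⟩
    · have h3 : ∀ c : ℕ, c < 64 → c < 2 ^ j := fun c hc =>
        hc.trans_le (Nat.pow_le_pow_right (n := 2) (i := 6) (by norm_num) (by omega))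
      rw [Nat.testBit_lt_two_pow (h3 a ha.1), Nat.testBit_lt_two_pow (h3 b hb.1)]

theorem forcing_mask : IsForcing (cube 6) (setOf (masks.getD 0 0)) := by
  intro v
  apply filled_of_iterate (cube 6) _ 18
  rw [iterate_masks 18 le_rfl, full_mask]
  trivial

theorem Z_eq : Z (cube 6) = 32 := by
  unfold Z
  apply le_antisymm
  · exact Nat.sInf_le ⟨_, forcing_mask, card_mask⟩
  · obtain ⟨S, hS, hc⟩ := Nat.sInf_mem (s := {k | ∃ S : Set (Fin 6 → Bool),
      IsForcing (cube 6) S ∧ S.ncard = k}) ⟨_, _, forcing_mask, card_mask⟩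
    rw [← hc]
    exact card_ge hS

theorem pt_mask : pt (cube 6) (setOf (masks.getD 0 0)) = 18 := by
  unfold pt
  apply le_antisymm
  · exact Nat.sInf_le (by
      show (step (cube 6))^[18] _ = Set.univ
      rw [iterate_masks 18 le_rfl, full_mask])
  · refine le_csInf ⟨18, by
      show (step (cube 6))^[18] _ = Set.univ
      rw [iterate_masks 18 le_rfl, full_mask]⟩ ?_
    intro t ht
    by_contra hlt
    rw [not_le] at hlt
    apply not_full
    have h1 := iterate_mono (cube 6) (setOf (masks.getD 0 0)) (show t ≤ 17 by omega)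
    have ht' : (step (cube 6))^[t] (setOf (masks.getD 0 0)) = Set.univ := ht
    rw [ht', iterate_masks 17 (by norm_num)] at h1
    exact Set.eq_univ_of_univ_subset h1

/-- **Main result.** The hypercube `Q_6` has a minimum zero forcing set (it has 32 vertices) with
propagation time 18, so `PT(Q_6) ≥ 18 > 2 ^ (6 - 2)`. Hence it is not true that for every `d ≥ 2` one has `pt(Q_d) = 1`,
`PT(Q_d) = 2 ^ (d - 2)` and a full propagation time interval. -/
theorem result : (∃ S, IsMin (cube 6) S ∧ pt (cube 6) S = 18) ∧ 18 ≤ ptMax (cube 6) ∧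
    ¬ ∀ d : ℕ, 2 ≤ d → ptMin (cube d) = 1 ∧ ptMax (cube d) = 2 ^ (d - 2) ∧
      FullInterval (cube d) := by
  have h1 : IsMin (cube 6) (setOf (masks.getD 0 0)) := ⟨forcing_mask, by rw [card_mask, Z_eq]⟩
  have h2 : 18 ≤ ptMax (cube 6) := by
    refine le_csSup ?_ ⟨_, h1, pt_mask⟩
    have : {t | ∃ S, IsMin (cube 6) S ∧ pt (cube 6) S = t} ⊆ Set.range (pt (cube 6)) := by
      rintro t ⟨S, _, rfl⟩
      exact ⟨S, rfl⟩
    exact ((Set.finite_range (pt (cube 6))).subset this).bddAbove
  refine ⟨⟨_, h1, pt_mask⟩, h2, fun h => ?_⟩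
  have h3 := (h 6 (by norm_num)).2.1
  rw [h3] at h2
  norm_num at h2

end Pool.Agent.Results.MP_d17388_co.SlowForcingCube
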